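import Pool.Agent.Y883.GJ.Stm

/-!
# GJ-TIMAJ: smooth sums over nonprincipal characters
-/

set_option autoImplicit false

namespace Pool.Agent.Y948.GJ

open Finset
open Pool.Agent.H807R2.Dav (ee)
open Pool.Agent.Y883.GJ

lemma range_sum {q : ℕ} [NeZero q] (χ : DirichletCharacter ℂ q) :
    ∑ b ∈ range q, χ (b : ZMod q) = ∑ x : ZMod q, χ x := by
  refine Finset.sum_nbij' (fun b => (b : ZMod q)) (fun x => x.val) ?_ ?_ ?_ ?_ ?_
  · intro b _
    exact mem_univ _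
  · intro x _
    exact mem_range.2 (ZMod.val_lt x)
  · intro b hb
    exact ZMod.val_natCast_of_lt (mem_range.1 hb)
  · intro x _
    exact ZMod.natCast_zmod_val x
  · intro b _
    rfl

lemma period_sum {q : ℕ} [NeZero q] {χ : DirichletCharacter ℂ q} (hχ : χ ≠ 1) (a : ℕ) :
    ∑ b ∈ range q, χ ((a + b : ℕ) : ZMod q) = 0 := by
  induction a with
  | zero =>
    simp only [zero_add]
    rw [range_sum, MulChar.sum_eq_zero_of_ne_one hχ]
  | succ a ih =>
    have h1 := Finset.sum_range_succ (fun b => χ ((a + b : ℕ) : ZMod q)) q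
    have h2 := Finset.sum_range_succ' (fun b => χ ((a + b : ℕ) : ZMod q)) q
    rw [h1, ih] at h2
    have h3 : ((a + q : ℕ) : ZMod q) = ((a + 0 : ℕ) : ZMod q) := by simp
    rw [h3] at h2
    have h4 : ∑ b ∈ range q, χ ((a + 1 + b : ℕ) : ZMod q) =
        ∑ b ∈ range q, χ ((a + (b + 1) : ℕ) : ZMod q) := by
      refine sum_congr rfl fun b _ => ?_
      rw [show a + 1 + b = a + (b + 1) by ring]
    rw [h4]
    linear_combination -h2

lemma partial_sum {q : ℕ} [NeZero q] {χ : DirichletCharacter ℂ q} (hχ : χ ≠ 1) (n : ℕ) :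
    ‖∑ i ∈ range n, χ ((i + 1 : ℕ) : ZMod q)‖ ≤ q := by
  induction n using Nat.strong_induction_on with
  | _ n ih =>
    rcases lt_or_ge n q with h | h
    · calc ‖∑ i ∈ range n, χ ((i + 1 : ℕ) : ZMod q)‖
          ≤ ∑ i ∈ range n, ‖χ ((i + 1 : ℕ) : ZMod q)‖ := norm_sum_le _ _
        _ ≤ ∑ i ∈ range n, (1 : ℝ) := sum_le_sum fun i _ => DirichletCharacter.norm_le_one χ _
        _ = n := by simp
        _ ≤ q := by exact_mod_cast h.le
    · obtain ⟨m, rfl⟩ := Nat.exists_eq_add_of_le' h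
      rw [Finset.sum_range_add]
      have h1 := period_sum hχ (m + 1)
      have h2 : ∑ x ∈ range q, χ ((m + x + 1 : ℕ) : ZMod q) =
          ∑ b ∈ range q, χ ((m + 1 + b : ℕ) : ZMod q) := by
        refine sum_congr rfl fun b _ => ?_
        rw [show m + b + 1 = m + 1 + b by ring]
      rw [h2, h1, add_zero]
      exact ih m (by have := Nat.pos_of_ne_zero (NeZero.ne q); omega)

/-- partial summation -/
lemma abel {a w : ℕ → ℂ} {C δ : ℝ} (hC : ∀ n, ‖∑ i ∈ range n, a i‖ ≤ C) (hw : ∀ i, ‖w i‖ ≤ 1)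
    (hd : ∀ i, ‖w (i + 1) - w i‖ ≤ δ) (n : ℕ) :
    ‖∑ i ∈ range n, w i * a i‖ ≤ C * (1 + δ * n) := by
  have hC0 : 0 ≤ C := (norm_nonneg _).trans (hC 0)
  have hδ0 : 0 ≤ δ := (norm_nonneg _).trans (hd 0)
  have h := Finset.sum_range_by_parts w a n
  simp only [smul_eq_mul] at h
  rw [h]
  have h1 : ‖w (n - 1) * ∑ i ∈ range n, a i‖ ≤ C := by
    rw [norm_mul]
    calc ‖w (n - 1)‖ * ‖∑ i ∈ range n, a i‖ ≤ 1 * C :=
          mul_le_mul (hw _) (hC n) (norm_nonneg _) zero_le_one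
      _ = C := one_mul C
  have h2 : ‖∑ i ∈ range (n - 1), (w (i + 1) - w i) * ∑ i ∈ range (i + 1), a i‖ ≤
      n * (δ * C) := by
    calc ‖∑ i ∈ range (n - 1), (w (i + 1) - w i) * ∑ i ∈ range (i + 1), a i‖
        ≤ ∑ i ∈ range (n - 1), ‖(w (i + 1) - w i) * ∑ i ∈ range (i + 1), a i‖ := norm_sum_le _ _
      _ ≤ ∑ i ∈ range (n - 1), δ * C := by
          refine sum_le_sum fun i _ => ?_
          rw [norm_mul]
          exact mul_le_mul (hd i) (hC _) (norm_nonneg _) hδ0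
      _ = ((n - 1 : ℕ) : ℝ) * (δ * C) := by rw [sum_const, card_range, nsmul_eq_mul]
      _ ≤ n * (δ * C) := by
          refine mul_le_mul_of_nonneg_right ?_ (mul_nonneg hδ0 hC0)
          exact_mod_cast Nat.sub_le n 1
  calc _ ≤ ‖w (n - 1) * ∑ i ∈ range n, a i‖ +
        ‖∑ i ∈ range (n - 1), (w (i + 1) - w i) * ∑ i ∈ range (i + 1), a i‖ := norm_sub_le _ _
    _ ≤ C + n * (δ * C) := add_le_add h1 h2
    _ = C * (1 + δ * n) := by ring

lemma ee_sub_one (x : ℝ) : ‖ee x - 1‖ ≤ 7 * |x| := by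
  rw [Pool.Agent.H807R2.Dav.ee_eq']
  refine (Real.norm_exp_I_mul_ofReal_sub_one_le).trans ?_
  rw [Real.norm_eq_abs, abs_mul, abs_of_pos (by positivity : (0 : ℝ) < 2 * Real.pi)]
  have := Real.pi_lt_d2
  exact mul_le_mul_of_nonneg_right (by linarith) (abs_nonneg x)

/-- one character -/
lemma one_char {q : ℕ} [NeZero q] {χ : DirichletCharacter ℂ q} (hχ : χ ≠ 1) (η : ℝ) (c y : ℕ) :
    ‖∑ b ∈ Icc 1 y, χ ((b * c : ℕ) : ZMod q) * ee (((b * c : ℕ) : ℝ) * η)‖ ≤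
      q * (1 + 7 * |η| * (c * y)) := by
  have h1 : ∑ b ∈ Icc 1 y, χ ((b * c : ℕ) : ZMod q) * ee (((b * c : ℕ) : ℝ) * η) =
      χ (c : ZMod q) * ∑ i ∈ range y, ee (((i + 1 : ℕ) : ℝ) * (c * η)) *
        χ ((i + 1 : ℕ) : ZMod q) := by
    rw [Finset.mul_sum, Finset.range_eq_Ico, Finset.sum_Ico_add' (fun b => χ (c : ZMod q) *
      (ee (((b : ℕ) : ℝ) * (c * η)) * χ ((b : ℕ) : ZMod q))) 0 y 1]
    refine sum_congr (by ext b; simp only [mem_Icc, mem_Ico]; omega) fun b _ => ?_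
    have e1 : (((b * c : ℕ) : ℝ) * η) = ((b : ℕ) : ℝ) * (c * η) := by push_cast; ring
    rw [e1, Nat.cast_mul, map_mul]
    ring
  rw [h1, norm_mul]
  have h2 : ‖∑ i ∈ range y, ee (((i + 1 : ℕ) : ℝ) * (c * η)) * χ ((i + 1 : ℕ) : ZMod q)‖ ≤
      q * (1 + (7 * |c * η|) * y) := by
    refine abel (partial_sum hχ) (fun i => (Pool.Agent.H807R2.Dav.norm_ee _).le) (fun i => ?_) y
    have e2 : ee (((i + 1 + 1 : ℕ) : ℝ) * (c * η)) - ee (((i + 1 : ℕ) : ℝ) * (c * η)) =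
        ee (((i + 1 : ℕ) : ℝ) * (c * η)) * (ee (c * η) - 1) := by
      have e3 : (((i + 1 + 1 : ℕ) : ℝ) * (c * η)) = ((i + 1 : ℕ) : ℝ) * (c * η) + c * η := by
        push_cast; ring
      rw [e3, Pool.Agent.H807R2.Dav.ee_add]
      ring
    rw [e2, norm_mul, Pool.Agent.H807R2.Dav.norm_ee, one_mul]
    exact ee_sub_one _
  calc ‖χ (c : ZMod q)‖ * ‖∑ i ∈ range y, ee (((i + 1 : ℕ) : ℝ) * (c * η)) *
        χ ((i + 1 : ℕ) : ZMod q)‖ ≤ 1 * (q * (1 + (7 * |c * η|) * y)) :=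
        mul_le_mul (DirichletCharacter.norm_le_one χ _) h2 (norm_nonneg _) zero_le_one
    _ = q * (1 + 7 * |η| * (c * y)) := by
        rw [abs_mul, Nat.abs_cast]
        ring

lemma card_chars (q : ℕ) [NeZero q] : Fintype.card (DirichletCharacter ℂ q) ≤ q := by
  have h := DirichletCharacter.card_eq_totient_of_hasEnoughRootsOfUnity ℂ q
  rw [Nat.card_eq_fintype_card] at h
  rw [h]
  exact Nat.totient_le q

/-- TIMAJ -/
theorem tiMaj : TiMajStm := by
  intro q _ S hS η c y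
  set B : ℝ := q * (1 + 7 * |η| * (c * y)) with hB
  have hB0 : 0 ≤ B := by positivity
  have hcoord : ∀ χ : DirichletCharacter ℂ q, ‖(∑ b ∈ Icc 1 y, ev S η (b * c)) χ‖ ≤ B := by
    intro χ
    have e : (∑ b ∈ Icc 1 y, ev S η (b * c)) χ = ∑ b ∈ Icc 1 y, (ev S η (b * c)) χ := by
      simp
    rw [e]
    by_cases h : χ ∈ S
    · have e2 : ∀ b ∈ Icc 1 y, (ev S η (b * c)) χ =
          χ ((b * c : ℕ) : ZMod q) * ee (((b * c : ℕ) : ℝ) * η) := by
        intro b _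
        simp [ev, h]
      rw [sum_congr rfl e2]
      exact one_char (fun h1 => hS (h1 ▸ h)) η c y
    · have e2 : ∀ b ∈ Icc 1 y, (ev S η (b * c)) χ = 0 := by
        intro b _
        simp [ev, h]
      rw [sum_congr rfl e2, sum_const_zero, norm_zero]
      exact hB0
  rw [EuclideanSpace.norm_eq]
  calc Real.sqrt (∑ χ, ‖(∑ b ∈ Icc 1 y, ev S η (b * c)) χ‖ ^ 2)
      ≤ Real.sqrt ((q : ℝ) * B ^ 2) := by
        apply Real.sqrt_le_sqrt
        calc ∑ χ : DirichletCharacter ℂ q, ‖(∑ b ∈ Icc 1 y, ev S η (b * c)) χ‖ ^ 2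
            ≤ ∑ χ : DirichletCharacter ℂ q, B ^ 2 :=
              sum_le_sum fun χ _ => pow_le_pow_left₀ (norm_nonneg _) (hcoord χ) 2
          _ = (Fintype.card (DirichletCharacter ℂ q) : ℝ) * B ^ 2 := by
              rw [sum_const, nsmul_eq_mul, card_univ]
          _ ≤ (q : ℝ) * B ^ 2 :=
              mul_le_mul_of_nonneg_right (by exact_mod_cast card_chars q) (sq_nonneg B)
    _ = Real.sqrt q * B := by
        rw [Real.sqrt_mul (Nat.cast_nonneg q), Real.sqrt_sq hB0]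
    _ = q * Real.sqrt q * (1 + 7 * |η| * (c * y)) := by
        rw [hB]
        ring

end Pool.Agent.Y948.GJ
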